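import Pool.Agent.helper7.RC.Basic
import Pool.Agent.helper80.RN.Nonab

/-!
# Doubling

Let `G` be a subdirectly irreducible group with nonabelian least normal subgroup `A`, and suppose that some `b ∈ A`
is not a product of two elements of `A ∩ U a k₀`.  Then for every `k` there is an `l` such that
`U a l * U a l ⊆ U a k`.
-/

namespace Pool.Agent.helper71.CPT

open Pool.Agent.helper80.RSV Pool.Agent.helper7.RC Pool.Agent.helper80.RN Function Filter
open scoped commutatorElement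

variable {G : Type} [Group G]

theorem ncl_pi {k : ℕ} {w q : ℕ → G} (h : ∀ n, q n ∈ Ncl k (w n)) : q ∈ Ncl k w := by
  induction k generalizing q with
  | zero => exact funext h
  | succ k ih =>
    choose y hy z hz hq using h
    choose g s hgs using hy
    exact ⟨y, ⟨g, s, funext hgs⟩, z, ih hz, funext hq⟩

theorem Ncl_inv' {j : ℕ} {v c : G} (hc : c ∈ Ncl j v) {x : G} (hx : x ∈ Kc c) : x ∈ Ncl (j + j) v := by
  obtain ⟨g, h, rfl⟩ := hx
  exact Ncl_conj (Ncl_mul (Ncl_inv hc) (Ncl_conj hc g)) h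

theorem Ncl_Ncl {j k : ℕ} {v c x : G} (hc : c ∈ Ncl j v) (hx : x ∈ Ncl k c) : x ∈ Ncl (k * (j + j)) v := by
  induction k generalizing x with
  | zero =>
    rw [Nat.zero_mul]
    exact hx
  | succ k ih =>
    obtain ⟨y, hy, z, hz, rfl⟩ := hx
    rw [Nat.succ_mul, Nat.add_comm]
    exact Ncl_mul (Ncl_inv' hc hy) (ih hz)

/-- the subgroup of all elements of the sets `Ncl k c` -/
def NclS (c : G) : Subgroup G where
  carrier := {x | ∃ k, x ∈ Ncl k c}
  one_mem' := ⟨0, one_mem_Ncl 0 c⟩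
  mul_mem' := by
    rintro x y ⟨k, hx⟩ ⟨l, hy⟩
    exact ⟨k + l, Ncl_mul hx hy⟩
  inv_mem' := by
    rintro x ⟨k, hx⟩
    exact ⟨k, Ncl_inv hx⟩

theorem NclS_normal (c : G) : (NclS c).Normal :=
  ⟨fun x hx g => by
    obtain ⟨k, hx⟩ := hx
    exact ⟨k, Ncl_conj hx g⟩⟩

/-- an element of the nonabelian monolith is not central -/
theorem not_central (hn : NonabSI G) {a : G} (ha : ASI a) : ∃ g : G, a * g ≠ g * a := by
  by_contra hcon
  push Not at hcon
  obtain ⟨A, hA, hAn⟩ := hn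
  apply hAn
  have h1 : Subgroup.center G ≠ ⊥ := by
    intro hb
    have h2 : a ∈ Subgroup.center G := Subgroup.mem_center_iff.mpr fun g => (hcon g).symm
    rw [hb, Subgroup.mem_bot] at h2
    exact ha.1 h2
  have h2 : A ≤ Subgroup.center G := hA.2.2 _ inferInstance h1
  intro x hx y hy
  exact (Subgroup.mem_center_iff.mp (h2 hy) x)

/-- the sequences `f` with `f n ∈ Ncl k (u n)` for almost all `n` -/
def NU (F : Ultrafilter ℕ) (u : ℕ → G) : Subgroup (ℕ → G) where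
  carrier := {f | ∃ k, ∀ᶠ n in (F : Filter ℕ), f n ∈ Ncl k (u n)}
  one_mem' := ⟨0, Eventually.of_forall fun n => one_mem_Ncl 0 (u n)⟩
  mul_mem' := by
    rintro f g ⟨k, hf⟩ ⟨l, hg⟩
    exact ⟨k + l, (hf.and hg).mono fun n hn => Ncl_mul hn.1 hn.2⟩
  inv_mem' := by
    rintro f ⟨k, hf⟩
    exact ⟨k, hf.mono fun n hn => Ncl_inv hn⟩

theorem NU_normal (F : Ultrafilter ℕ) (u : ℕ → G) : (NU F u).Normal :=
  ⟨fun f hf g => by
    obtain ⟨k, hf⟩ := hf
    exact ⟨k, hf.mono fun n hn => Ncl_conj hn (g n)⟩⟩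

/-- a maximal normal subgroup avoiding `a` contains all elements which are central modulo it -/
theorem mem_of_central (hn : NonabSI G) {a : G} (ha : ASI a) {M : Subgroup (ℕ → G)} (hM : M.Normal)
    (haM : (fun _ => a) ∉ M)
    (hmax : ∀ K : Subgroup (ℕ → G), K.Normal → M ≤ K → M ≠ K → (fun _ => a) ∈ K) {x : ℕ → G}
    (hx : ∀ g : ℕ → G, x * g * x⁻¹ * g⁻¹ ∈ M) : x ∈ M := by
  by_contra hxM
  let j : G →* (ℕ → G) := MonoidHom.mk' (fun x _ => x) (fun _ _ => rfl)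
  have hcen : ∀ y : (ℕ → G), (∀ g : ℕ → G, y * g * y⁻¹ * g⁻¹ ∈ M) ↔
      (y : (ℕ → G) ⧸ M) ∈ Subgroup.center ((ℕ → G) ⧸ M) := by
    intro y
    rw [Subgroup.mem_center_iff]
    constructor
    · intro h g
      obtain ⟨g, rfl⟩ := QuotientGroup.mk_surjective g
      have h1 := (QuotientGroup.eq_one_iff _).mpr (h g)
      simp only [QuotientGroup.mk_mul, QuotientGroup.mk_inv] at h1
      rw [mul_inv_eq_one, mul_inv_eq_iff_eq_mul] at h1
      exact h1.symm
    · intro h g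
      rw [← QuotientGroup.eq_one_iff]
      simp only [QuotientGroup.mk_mul, QuotientGroup.mk_inv]
      rw [mul_inv_eq_one, mul_inv_eq_iff_eq_mul]
      exact (h g).symm
  have hA : ASI (((fun _ => a : ℕ → G)) : (ℕ → G) ⧸ M) := aSI_quotient haM hmax
  have h1 : Subgroup.center ((ℕ → G) ⧸ M) ≠ ⊥ := by
    intro hb
    have h2 := (hcen x).mp hx
    rw [hb, Subgroup.mem_bot, QuotientGroup.eq_one_iff] at h2
    exact hxM h2
  have h2 := hA.2 _ inferInstance h1
  have h3 := (hcen _).mpr h2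
  obtain ⟨g, hg⟩ := not_central hn ha
  apply hg
  have h4 : M.comap j = ⊥ := by
    by_contra hne
    exact haM (ha.2 _ inferInstance hne)
  have h5 : a * g * a⁻¹ * g⁻¹ ∈ M.comap j := h3 (fun _ => g)
  rw [h4, Subgroup.mem_bot, mul_inv_eq_one, mul_inv_eq_iff_eq_mul] at h5
  exact h5

/-- sequences in `A` -/
def PiS (A : Subgroup G) : Subgroup (ℕ → G) where
  carrier := {f | ∀ n, f n ∈ A}
  one_mem' := fun _ => A.one_mem
  mul_mem' := fun hf hg n => A.mul_mem (hf n) (hg n)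
  inv_mem' := fun hf n => A.inv_mem (hf n)

theorem PiS_normal {A : Subgroup G} (hA : A.Normal) : (PiS A).Normal :=
  ⟨fun _ hf g n => hA.conj_mem _ (hf n) (g n)⟩

/-- if `a` is in the product of two normal subgroups of `G ^ ℕ`, then in the product of their intersections with
`A ^ ℕ` -/
theorem split_A {A : Subgroup G} (hA : LeastNormal A) (hAn : ¬ AbSub A) {a : G} (ha1 : a ≠ 1)
    {M C : Subgroup (ℕ → G)} (hM : M.Normal) (hC : C.Normal) (h : (fun _ => a) ∈ C ⊔ M) {b : G} (hb : b ∈ A) :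
    (fun _ => b) ∈ (C ⊓ PiS A) ⊔ (M ⊓ PiS A) := by
  have hAN := hA.1
  have hP := PiS_normal hAN
  let j : G →* (ℕ → G) := MonoidHom.mk' (fun x _ => x) (fun _ _ => rfl)
  have h1 : A ≤ (C ⊔ M).comap j := by
    apply hA.2.2 _ inferInstance
    intro hbot
    apply ha1
    have h2 : a ∈ (C ⊔ M).comap j := h
    rwa [hbot, Subgroup.mem_bot] at h2
  have h2 : A ≤ ⁅A, A⁆ := by
    apply hA.2.2 _ inferInstance
    intro hbot
    apply hAn
    intro x hx y hy
    have h3 := Subgroup.commutator_mem_commutator hx hy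
    rw [hbot, Subgroup.mem_bot, commutatorElement_def, mul_inv_eq_one, mul_inv_eq_iff_eq_mul] at h3
    exact h3
  have h3 : ⁅A, A⁆ ≤ ((C ⊓ PiS A) ⊔ (M ⊓ PiS A)).comap j := by
    rw [Subgroup.commutator_le]
    intro x hx y hy
    obtain ⟨c, hc, m, hm, he⟩ := Subgroup.mem_sup_of_normal_left.mp (h1 hy)
    show j ⁅x, y⁆ ∈ (C ⊓ PiS A) ⊔ (M ⊓ PiS A)
    have hxj : j x ∈ PiS A := fun n => hx
    have h4 : j ⁅x, y⁆ = (j x * c * (j x)⁻¹ * c⁻¹) * (c * (j x * m * (j x)⁻¹ * m⁻¹) * c⁻¹) := by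
      rw [map_commutatorElement, ← he, commutatorElement_def]
      group
    rw [h4]
    refine Subgroup.mul_mem _ (Subgroup.mem_sup_left ⟨C.mul_mem (hC.conj_mem _ hc _) (C.inv_mem hc), ?_⟩)
      (Subgroup.mem_sup_right ⟨hM.conj_mem _ (M.mul_mem (hM.conj_mem _ hm _) (M.inv_mem hm)) _,
        hP.conj_mem _ ?_ _⟩)
    · have h5 := (PiS A).mul_mem hxj (hP.conj_mem _ ((PiS A).inv_mem hxj) c)
      have h6 : j x * (c * (j x)⁻¹ * c⁻¹) = j x * c * (j x)⁻¹ * c⁻¹ := by group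
      rwa [h6] at h5
    · have h5 := (PiS A).mul_mem hxj (hP.conj_mem _ ((PiS A).inv_mem hxj) m)
      have h6 : j x * (m * (j x)⁻¹ * m⁻¹) = j x * m * (j x)⁻¹ * m⁻¹ := by group
      rwa [h6] at h5
  exact h3 (h2 hb)

theorem asi_of_least {A : Subgroup G} (hA : LeastNormal A) {a : G} (ha : a ∈ A) (h1 : a ≠ 1) : ASI a :=
  ⟨h1, fun N hN hne => hA.2.2 N hN hne ha⟩

theorem doubling {A : Subgroup G} (hA : LeastNormal A) (hAn : ¬ AbSub A) {a : G} (haA : a ∈ A) (ha1 : a ≠ 1)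
    {b : G} (hb : b ∈ A) {k₀ : ℕ} (h5 : ∀ y ∈ A, ∀ z ∈ A, y * z = b → a ∈ Ncl k₀ y ∨ a ∈ Ncl k₀ z) :
    ∀ k, ∃ l, ∀ u v : G, a ∉ Ncl l u → a ∉ Ncl l v → a ∉ Ncl k (u * v) := by
  intro k
  by_contra hcon
  push Not at hcon
  have hn : NonabSI G := ⟨A, hA, hAn⟩
  have ha : ASI a := asi_of_least hA haA ha1
  choose u v hu hv huv using hcon
  let F : Ultrafilter ℕ := hyperfilter ℕ
  have hF : ∀ l : ℕ, ∀ᶠ n in (F : Filter ℕ), l ≤ n := fun l => by
    have h1 : (F : Filter ℕ) ≤ cofinite := hyperfilter_le_cofinite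
    rw [Nat.cofinite_eq_atTop] at h1
    exact h1 (eventually_ge_atTop l)
  have haN : ∀ w : ℕ → G, (∀ l, a ∉ Ncl l (w l)) → (fun _ => a) ∉ NU F w := by
    rintro w hw ⟨l, hl⟩
    obtain ⟨n, hn1, hn2⟩ := (hl.and (hF l)).exists
    exact hw n (Ncl_mono hn2 hn1)
  obtain ⟨M, hMn, hNM, haM, hmax⟩ := exists_max_avoid (NU_normal F u) (haN u hu)
  have htriv : ∀ f : ℕ → G, (∀ᶠ n in (F : Filter ℕ), f n = 1) → f ∈ M := fun f hf =>
    hNM ⟨0, hf.mono fun n hn => hn⟩
  have huM : u ∈ M := mem_of_central hn ha hMn haM hmax fun g =>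
    hNM ⟨1, Eventually.of_forall fun n => Kc_sub_Ncl_one (comm_mem_Kc' (u n) (g n))⟩
  have hvM : v ∈ M := by
    by_contra hvM
    have h1 : ¬ (∀ g : ℕ → G, v * g * v⁻¹ * g⁻¹ ∈ M) := fun h => hvM (mem_of_central hn ha hMn haM hmax h)
    push Not at h1
    obtain ⟨g, hg⟩ := h1
    have hNv := NclS_normal v
    have h2 : (fun _ => a) ∈ NclS v ⊔ M := by
      apply hmax _ inferInstance le_sup_right
      intro he
      apply hg
      rw [he]
      exact Subgroup.mem_sup_left ⟨1, Kc_sub_Ncl_one (comm_mem_Kc' v g)⟩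
    have hP := PiS_normal hA.1
    obtain ⟨c, ⟨⟨j, hc⟩, hcA⟩, n, ⟨hnM, hnA⟩, he⟩ :=
      Subgroup.mem_sup_of_normal_left.mp (split_A hA hAn ha1 hMn hNv h2 hb)
    have hcn : ∀ i, c i * n i = b := fun i => congrFun he i
    have hci : ∀ i, c i ∈ Ncl j (v i) := fun i => Ncl_map (Pi.evalMonoidHom (fun _ : ℕ => G) i) hc
    have h3 : ∀ᶠ i in (F : Filter ℕ), a ∈ Ncl k₀ (c i) ∨ a ∈ Ncl k₀ (n i) :=
      Eventually.of_forall fun i => h5 (c i) (hcA i) (n i) (hnA i) (hcn i)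
    rcases Ultrafilter.eventually_or.mp h3 with h4 | h4
    · obtain ⟨i, h5, h6⟩ := (h4.and (hF (k₀ * (j + j)))).exists
      exact hv i (Ncl_mono h6 (Ncl_Ncl (hci i) h5))
    · classical
      let q : ℕ → G := fun i => if a ∈ Ncl k₀ (n i) then a else 1
      have hq : q ∈ Ncl k₀ n := ncl_pi fun i => by
        by_cases h : a ∈ Ncl k₀ (n i)
        · simp only [q, if_pos h]
          exact h
        · simp only [q, if_neg h]
          exact one_mem_Ncl _ _
      have hqM : q ∈ M := Ncl_sub_normal hMn hnM hq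
      have h6 : q⁻¹ * (fun _ => a) ∈ M := htriv _ (h4.mono fun i hi => by
        show (q i)⁻¹ * a = 1
        simp only [q, if_pos hi, inv_mul_cancel])
      have h7 := M.mul_mem hqM h6
      rw [mul_inv_cancel_left] at h7
      exact haM h7
  have h1 : (fun _ => a) ∈ Ncl k (u * v) := ncl_pi huv
  exact haM (Ncl_sub_normal hMn (M.mul_mem huM hvM) h1)

end Pool.Agent.helper71.CPT
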