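import Pool.Agent.helper71.CPT.LS
import Pool.Agent.helper80.RN.Fin2

/-!
# Theorem N with the conditions on countable groups
-/

namespace Pool.Agent.helper71.CPT

open Pool.Agent.helper80.RSV Pool.Agent.helper7.RC Pool.Agent.helper80.RN Function

/-- Let `A` be the least nontrivial normal subgroup of `G`.  There are `a ≠ 1` and `b` in `A` and `k` such that, for
all `y` and `z` in `A` with `y z = b`, the element `a` is a product of `k` elements `h y⁻¹ y ^ g h⁻¹`, or it is such a
product for `z` in place of `y`. -/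
def Sep2 (G : Type) [Group G] : Prop :=
  ∃ A : Subgroup G, LeastNormal A ∧ ∃ a ∈ A, a ≠ 1 ∧ ∃ b ∈ A, ∃ k : ℕ, ∀ y ∈ A, ∀ z ∈ A, y * z = b →
    a ∈ Ncl k y ∨ a ∈ Ncl k z

theorem least_unique {G : Type} [Group G] {A B : Subgroup G} (hA : LeastNormal A) (hB : LeastNormal B) : A = B :=
  le_antisymm (hA.2.2 B hB.1 hB.2.1) (hB.2.2 A hA.1 hA.2.1)

theorem inCompact_of_sep2 {W : Set (FreeGroup ℕ)} (hR : ResSmall W) {G : Type} [Group G] (hG : Sat W G)
    (hn : NonabSI G) (h : Sep2 G) : InCompact G := by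
  obtain ⟨A, hA, a, haA, ha1, b, hb, k, hk⟩ := h
  obtain ⟨B, hB, hBn⟩ := hn
  obtain rfl := least_unique hB hA
  have ha := asi_of_least hA haA ha1
  obtain ⟨H, h1, h2, h3, h4, h5, ι, h6, h7⟩ :=
    Pool.Agent.helper31.CPT.exists_compact_group' (bdd_of_rs hR) hG ha.1 ha.2 (center_trivial hA hBn)
      (doubling hA hBn haA ha1 hb hk)
  exact ⟨H, h1, h2, h3, h4, h5, ι, h7⟩

theorem finite_of_sep2 {W : Set (FreeGroup ℕ)} (hR : ResSmall W) {G : Type} [Group G] (hG : Sat W G)
    (hn : NonabSI G) (h : InCompact G ∨ Sep2 G) : Finite G := by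
  rcases h with h | h
  · exact finite_of_inCompact hR hG hn h
  · exact finite_of_inCompact hR hG hn (inCompact_of_sep2 hR hG hn h)

/-- it is enough to consider countable groups -/
theorem finite_of_countable {W : Set (FreeGroup ℕ)}
    (h : ∀ (G : Type) [Group G], Countable G → Sat W G → NonabSI G → Finite G) {G : Type} [Group G]
    (hG : Sat W G) (hn : NonabSI G) : Finite G := by
  by_contra hinf
  rw [not_finite_iff_infinite] at hinf
  obtain ⟨K, hKc, hKi, hKn⟩ := exists_countable_sub hn hinf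
  have h1 : Finite K := h K hKc (hG.subgroup K) hKn
  exact not_finite K

/-- if every subdirectly irreducible group with nonabelian monolith is smaller than the continuum, embeds in a
compact group or is separated, then these groups are finite -/
theorem nonab_finite3 {W : Set (FreeGroup ℕ)} (hR : ResSmall W)
    (hc : ∀ (G : Type) [Group G], Sat W G → NonabSI G →
      Cardinal.mk G < Cardinal.continuum ∨ InCompact G ∨ Sep2 G)
    {G : Type} [Group G] (hG : Sat W G) (hn : NonabSI G) : Finite G :=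
  nonab_finite2 hR (fun K _ hK hKn => (hc K hK hKn).imp_right fun h =>
    Or.inl (h.elim id (inCompact_of_sep2 hR hK hKn))) hG hn

theorem final_CPT (W : Set (FreeGroup ℕ)) :
    List.TFAE [
      ResSmall W ∧ ∀ (G : Type) [Group G], Sat W G → NonabSI G →
        Cardinal.mk G < Cardinal.continuum ∨ InCompact G ∨ Sep2 G,
      ResSmall W ∧ ∀ (G : Type) [Group G], Countable G → Sat W G → NonabSI G → InCompact G ∨ Sep2 G,
      ResSmall W ∧ (∀ (G : Type) [Group G], Group.FG G → Sat W G → NonabSI G → InCompact G ∨ Sep2 G) ∧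
        ∃ B : ℕ, SimpleLe W B,
      ResSmall W ∧ ∀ (G : Type) [Group G], Sat W G → NonabSI G → Finite G,
      ∀ (G : Type) [Group G], Sat W G → SubdirIrr G → Cardinal.mk G < Cardinal.continuum,
      ∀ (G : Type) [Group G], Sat W G → SubdirIrr G → Countable G,
      ∃ (F : Type) (_ : Group F), Finite F ∧ AbSylow F ∧
        ((∀ (G : Type) [Group G], Sat W G ↔ InVar F G) ∨
          (∀ (G : Type) [Group G], Sat W G ↔ InVar (F × Multiplicative ℤ) G))] := by
  have h := final_RN2 W
  tfae_have 4 ↔ 5 := h.out 1 3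
  tfae_have 4 ↔ 6 := h.out 1 4
  tfae_have 4 ↔ 7 := h.out 1 5
  have h3 := h.out 2 1
  tfae_have 1 → 4 := by
    rintro ⟨hR, hc⟩
    exact ⟨hR, fun G _ hG hn => nonab_finite3 hR hc hG hn⟩
  tfae_have 4 → 1 := by
    rintro ⟨hR, hf⟩
    refine ⟨hR, fun G _ hG hn => ?_⟩
    have := hf G hG hn
    exact Or.inr (Or.inl inCompact_of_finite)
  tfae_have 2 → 4 := by
    rintro ⟨hR, hc⟩
    exact ⟨hR, fun G _ hG hn => finite_of_countable
      (fun K _ hKc hK hKn => finite_of_sep2 hR hK hKn (hc K hKc hK hKn)) hG hn⟩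
  tfae_have 4 → 2 := by
    rintro ⟨hR, hf⟩
    refine ⟨hR, fun G _ _ hG hn => ?_⟩
    have := hf G hG hn
    exact Or.inl inCompact_of_finite
  tfae_have 3 → 4 := by
    rintro ⟨hR, hc, hB⟩
    refine h3.mp ⟨hR, fun G _ hfg hG hn => ?_, hB⟩
    have := finite_of_sep2 hR hG hn (hc G hfg hG hn)
    exact Or.inl inCompact_of_finite
  tfae_have 4 → 3 := by
    rintro ⟨hR, hf⟩
    refine ⟨hR, fun G _ _ hG hn => ?_, (h3.mpr ⟨hR, hf⟩).2.2⟩
    have := hf G hG hn
    exact Or.inl inCompact_of_finite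
  tfae_finish

end Pool.Agent.helper71.CPT
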