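import Pool.Agent.helper71.CPT.Dbl

/-!
# Countable subgroups

An infinite subdirectly irreducible group with nonabelian least normal subgroup contains a countable infinite subgroup
of the same kind.
-/

namespace Pool.Agent.helper71.CPT

open Pool.Agent.helper80.RSV Pool.Agent.helper7.RC Pool.Agent.helper80.RN Function

variable {G : Type} [Group G]

theorem center_trivial {A : Subgroup G} (hA : LeastNormal A) (hAn : ¬ AbSub A) :
    ∀ x : G, (∀ g, g * x = x * g) → x = 1 := by
  intro x hx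
  by_contra hne
  apply hAn
  have h1 : Subgroup.center G ≠ ⊥ := by
    intro hb
    apply hne
    have h2 : x ∈ Subgroup.center G := Subgroup.mem_center_iff.mpr hx
    rwa [hb, Subgroup.mem_bot] at h2
  have h2 : A ≤ Subgroup.center G := hA.2.2 _ inferInstance h1
  intro x hx y hy
  exact Subgroup.mem_center_iff.mp (h2 hy) x

theorem exists_Ncl {A : Subgroup G} (hA : LeastNormal A) (hAn : ¬ AbSub A) {a : G} (haA : a ∈ A)
    {y : G} (hy : y ≠ 1) : ∃ k, a ∈ Ncl k y := by
  have h2 : ∃ g : G, g * y ≠ y * g := by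
    by_contra hcon
    push Not at hcon
    exact hy (center_trivial hA hAn y hcon)
  obtain ⟨g, hg⟩ := h2
  have h3 : NclS y ≠ ⊥ := by
    intro hb
    have h4 : y * g * y⁻¹ * g⁻¹ ∈ NclS y := ⟨1, Kc_sub_Ncl_one (comm_mem_Kc' y g)⟩
    rw [hb, Subgroup.mem_bot, mul_inv_eq_one, mul_inv_eq_iff_eq_mul] at h4
    exact hg h4.symm
  exact hA.2.2 _ (NclS_normal y) h3 haA

/-- finitely many witnesses for `a ∈ Ncl k y` -/
theorem exists_witness {k : ℕ} {y a : G} (h : a ∈ Ncl k y) : ∃ T : Set G, T.Countable ∧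
    ∀ K : Subgroup G, ∀ hy : y ∈ K, T ⊆ K → ∃ x ∈ Ncl k (⟨y, hy⟩ : K), (x : G) = a := by
  induction k generalizing a with
  | zero =>
    refine ⟨∅, Set.countable_empty, fun K hy _ => ⟨1, one_mem_Ncl _ _, ?_⟩⟩
    have : a = 1 := h
    rw [this, Subgroup.coe_one]
  | succ k ih =>
    obtain ⟨p, ⟨g, s, rfl⟩, z, hz, rfl⟩ := h
    obtain ⟨T, hT, hTK⟩ := ih hz
    refine ⟨insert g (insert s T), (hT.insert s).insert g, fun K hy hK => ?_⟩
    rw [Set.insert_subset_iff, Set.insert_subset_iff] at hK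
    obtain ⟨x, hx, rfl⟩ := hTK K hy hK.2.2
    exact ⟨_, ⟨_, ⟨⟨g, hK.1⟩, ⟨s, hK.2.1⟩, rfl⟩, x, hx, rfl⟩, rfl⟩

theorem closure_countable {S : Set G} (hS : S.Countable) : (Subgroup.closure S : Set G).Countable := by
  have := hS.to_subtype
  rw [FreeGroup.closure_eq_range, MonoidHom.coe_range]
  exact Set.countable_range _

/-- the steps of the construction -/
def St (S0 : Set G) (T : G → Set G) : ℕ → Set G
  | 0 => S0
  | n + 1 => (Subgroup.closure (St S0 T n) : Set G) ∪ ⋃ y ∈ Subgroup.closure (St S0 T n), T y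

theorem St_countable {S0 : Set G} (h0 : S0.Countable) {T : G → Set G} (hT : ∀ y, (T y).Countable) (n : ℕ) :
    (St S0 T n).Countable := by
  induction n with
  | zero => exact h0
  | succ n ih =>
    have h1 : (Subgroup.closure (St S0 T n) : Set G).Countable := closure_countable ih
    exact h1.union (h1.biUnion fun y _ => hT y)

theorem St_sub {S0 : Set G} {T : G → Set G} (n : ℕ) :
    (Subgroup.closure (St S0 T n) : Set G) ⊆ Subgroup.closure (St S0 T (n + 1)) :=
  fun _ hx => Subgroup.subset_closure (Or.inl hx)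

theorem exists_closed {S0 : Set G} (h0 : S0.Countable) {T : G → Set G} (hT : ∀ y, (T y).Countable) :
    ∃ K : Subgroup G, S0 ⊆ K ∧ (∀ y ∈ K, T y ⊆ K) ∧ (K : Set G).Countable := by
  have hmono : Monotone fun n => Subgroup.closure (St S0 T n) := monotone_nat_of_le_succ fun n => St_sub n
  have hdir : Directed (· ≤ ·) fun n => Subgroup.closure (St S0 T n) := hmono.directed_le
  have hmem : ∀ x, x ∈ (⨆ n, Subgroup.closure (St S0 T n)) ↔ ∃ n, x ∈ Subgroup.closure (St S0 T n) :=
    fun x => Subgroup.mem_iSup_of_directed hdir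
  refine ⟨⨆ n, Subgroup.closure (St S0 T n), fun x hx => (hmem x).mpr ⟨0, Subgroup.subset_closure hx⟩, ?_, ?_⟩
  · intro y hy x hx
    obtain ⟨n, hn⟩ := (hmem y).mp hy
    refine (hmem x).mpr ⟨n + 1, Subgroup.subset_closure (Or.inr ?_)⟩
    exact Set.mem_biUnion hn hx
  · rw [Subgroup.coe_iSup_of_directed hdir]
    exact Set.countable_iUnion fun n => closure_countable (St_countable h0 hT n)

theorem exists_noncomm_conj {A : Subgroup G} (hA : LeastNormal A) (hAn : ¬ AbSub A) {a : G} (haA : a ∈ A)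
    (ha1 : a ≠ 1) : ∃ g : G, a * (g * a * g⁻¹) ≠ (g * a * g⁻¹) * a := by
  by_contra hcon
  push Not at hcon
  apply hAn
  have h1 : A ≤ Subgroup.normalClosure {a} := by
    apply hA.2.2 _ inferInstance
    intro hb
    have h2 : a ∈ Subgroup.normalClosure {a} := Subgroup.subset_normalClosure rfl
    rw [hb, Subgroup.mem_bot] at h2
    exact ha1 h2
  have h2 : A ≤ Subgroup.centralizer {a} := by
    refine h1.trans ?_
    rw [Subgroup.normalClosure, Subgroup.closure_le]
    intro x hx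
    rw [Group.mem_conjugatesOfSet_iff] at hx
    obtain ⟨b, hb, hbx⟩ := hx
    rw [Set.mem_singleton_iff] at hb
    subst hb
    obtain ⟨g, rfl⟩ := isConj_iff.mp hbx
    rw [SetLike.mem_coe, Subgroup.mem_centralizer_iff]
    rintro y hy
    rw [Set.mem_singleton_iff] at hy
    subst hy
    exact hcon g
  have h3 : A ≤ Subgroup.centralizer (A : Set G) := by
    refine hA.2.2 _ (by have := hA.1; infer_instance) ?_
    intro hb
    apply ha1
    have h4 : a ∈ Subgroup.centralizer (A : Set G) := by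
      rw [Subgroup.mem_centralizer_iff]
      intro y hy
      have h5 := h2 hy
      rw [Subgroup.mem_centralizer_iff] at h5
      exact (h5 a rfl).symm
    rwa [hb, Subgroup.mem_bot] at h4
  intro x hx y hy
  have h4 := h3 hy
  rw [Subgroup.mem_centralizer_iff] at h4
  exact h4 x hx

theorem exists_countable_sub (hn : NonabSI G) (hinf : Infinite G) :
    ∃ K : Subgroup G, Countable K ∧ Infinite K ∧ NonabSI K := by
  obtain ⟨A, hA, hAn⟩ := hn
  obtain ⟨⟨a, haA⟩, ha1⟩ := Subgroup.ne_bot_iff_exists_ne_one.mp hA.2.1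
  have ha1' : a ≠ 1 := fun h => ha1 (Subtype.ext h)
  obtain ⟨g, hg⟩ := exists_noncomm_conj hA hAn haA ha1'
  have hT : ∀ y : G, ∃ T : Set G, T.Countable ∧ (y ≠ 1 → ∀ K : Subgroup G, ∀ hy : y ∈ K, T ⊆ K →
      ∃ k, ∃ x ∈ Ncl k (⟨y, hy⟩ : K), (x : G) = a) := by
    intro y
    by_cases hy : y = 1
    · exact ⟨∅, Set.countable_empty, fun h => absurd hy h⟩
    · obtain ⟨k, hk⟩ := exists_Ncl hA hAn haA hy
      obtain ⟨T, hT, hTK⟩ := exists_witness hk
      exact ⟨T, hT, fun _ K hy hK => ⟨k, hTK K hy hK⟩⟩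
  choose T hTc hTK using hT
  obtain ⟨K, hK0, hKT, hKc⟩ := exists_closed
    (S0 := insert a (insert g (Set.range (Infinite.natEmbedding G))))
    (((Set.countable_range _).insert g).insert a) hTc
  rw [Set.insert_subset_iff, Set.insert_subset_iff] at hK0
  obtain ⟨haK, hgK, hrK⟩ := hK0
  refine ⟨K, hKc.to_subtype, ?_, ?_⟩
  · exact Infinite.of_injective (fun n => (⟨Infinite.natEmbedding G n, hrK ⟨n, rfl⟩⟩ : K)) fun m n h =>
      (Infinite.natEmbedding G).injective (Subtype.ext_iff.mp h)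
  · have hasi : ∀ N : Subgroup K, N.Normal → N ≠ ⊥ → (⟨a, haK⟩ : K) ∈ N := by
      intro N hN hne
      obtain ⟨⟨⟨y, hyK⟩, hyN⟩, hy1⟩ := Subgroup.ne_bot_iff_exists_ne_one.mp hne
      have hy1' : y ≠ 1 := fun h => hy1 (Subtype.ext (Subtype.ext h))
      obtain ⟨k, x, hx, hxa⟩ := hTK y hy1' K hyK (hKT y hyK)
      have h1 : x = ⟨a, haK⟩ := Subtype.ext hxa
      rw [← h1]
      exact Ncl_sub_normal hN hyN hx
    refine ⟨Subgroup.normalClosure {⟨a, haK⟩}, ⟨inferInstance, ?_, ?_⟩, ?_⟩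
    · intro hb
      have h2 : (⟨a, haK⟩ : K) ∈ Subgroup.normalClosure {(⟨a, haK⟩ : K)} := Subgroup.subset_normalClosure rfl
      rw [hb, Subgroup.mem_bot] at h2
      exact ha1' (Subtype.ext_iff.mp h2)
    · intro N hN hne
      apply Subgroup.normalClosure_le_normal
      rintro x rfl
      exact hasi N hN hne
    · intro hab
      have h2 : (⟨a, haK⟩ : K) ∈ Subgroup.normalClosure {(⟨a, haK⟩ : K)} := Subgroup.subset_normalClosure rfl
      have h3 := hab _ h2 _ (Subgroup.normalClosure_normal.conj_mem _ h2 ⟨g, hgK⟩)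
      exact hg (Subtype.ext_iff.mp h3)

end Pool.Agent.helper71.CPT
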